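import Mathlib

/-! Project CM (MP_768c9c_nt): exact statements. -/

namespace Pool.Agent.J4H92.CM

open Filter Topology Asymptotics MeasureTheory
open scoped ComplexConjugate ComplexOrder

/-- partial sums -/
noncomputable def S (f : ℕ → ℂ) (n : ℕ) : ℂ := ∑ k ∈ Finset.Icc 1 n, f k

/-- the transform `m(s) = ∫_1^∞ S(⌊t⌋) t^(-(s+1)) dt` -/
noncomputable def m (f : ℕ → ℂ) (s : ℂ) : ℂ :=
  ∫ t in Set.Ioi (1 : ℝ), S f ⌊t⌋₊ * (t : ℂ) ^ (-(s + 1))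

/-- `A(s) = s ζ(s+1)`, with `A(0) = 1` -/
noncomputable def A : ℂ → ℂ :=
  Function.update (fun s => s * riemannZeta (s + 1)) 0 1

/-- restriction to the integers without prime factors below `N` -/
noncomputable def cut (N : ℕ) (f : ℕ → ℂ) (n : ℕ) : ℂ :=
  open Classical in if ∀ p : ℕ, p.Prime → p < N → ¬ p ∣ n then f n else 0

/-- `u(n) = 1/n` (and `u 0 = 0`) -/
noncomputable def u (n : ℕ) : ℂ := (1 : ℂ) / (n : ℂ)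

/-- the finite product over the primes below `N` of the inverse Euler factors -/
noncomputable def PE (N : ℕ) (f : ℕ → ℂ) (s : ℂ) : ℂ :=
  ∏ p ∈ Nat.primesBelow N, (1 - f p * (p : ℂ) ^ (-s))

/-- (POS) the coefficients of `r * r * a * conj a` are nonnegative -/
def S_POS : Prop :=
  ∀ r a : ℕ → ℂ, r 0 = 0 → a 0 = 0 → r 1 = 1 → a 1 = 1 →
    (∀ m n, 0 < m → 0 < n → r (m * n) = r m * r n) →
    (∀ m n, 0 < m → 0 < n → a (m * n) = a m * a n) →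
    (∀ n, 0 ≤ r n) → (∀ n, ‖a n‖ ≤ (r n).re) →
    0 ≤ LSeries.convolution (LSeries.convolution r a)
      (LSeries.convolution r (fun n => conj (a n))) ∧
    LSeries.convolution (LSeries.convolution r a)
      (LSeries.convolution r (fun n => conj (a n))) 1 = 1

/-- (MEL) the transform is analytic to the right of `-1/2` -/
def S_MEL : Prop :=
  ∀ (f : ℕ → ℂ) (C : ℝ), (∀ n : ℕ, 0 < n → ‖S f n‖ ≤ C / Real.sqrt n) →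
    DifferentiableOn ℂ (m f) {s : ℂ | -(1 / 2 : ℝ) < s.re}

/-- (SUM) summation by parts -/
def S_SUM : Prop :=
  ∀ (f : ℕ → ℂ) (B C : ℝ), (∀ n, ‖f n‖ ≤ B) → (∀ n : ℕ, 0 < n → ‖S f n‖ ≤ C / Real.sqrt n) →
    ∀ s : ℂ, 1 < s.re → LSeriesSummable f s ∧ LSeries f s = s * m f s

/-- (EUL) removing the primes below `N` -/
def S_EUL : Prop :=
  ∀ (f : ℕ → ℂ) (B : ℝ) (N : ℕ), f 0 = 0 → f 1 = 1 →
    (∀ m n, 0 < m → 0 < n → f (m * n) = f m * f n) → (∀ n, ‖f n‖ ≤ B) →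
    ∀ s : ℂ, 1 < s.re → LSeriesSummable (cut N f) s ∧
      LSeries (cut N f) s = LSeries f s * PE N f s

/-- (ZET) `A` is entire -/
def S_ZET : Prop := Differentiable ℂ A

/-- (ZES) the series of `u` -/
def S_ZES : Prop :=
  ∀ s : ℂ, 1 < s.re → LSeries u s = riemannZeta (s + 1)

/-- (CNJ) conjugate coefficients -/
def S_CNJ : Prop :=
  ∀ (f : ℕ → ℂ) (s : ℂ), m (fun n => conj (f n)) s = conj (m f (conj s))

/-- (KEY) the positivity inequality -/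
def S_KEY : Prop :=
  ∀ (f : ℕ → ℂ) (C : ℝ) (N0 N : ℕ), f 0 = 0 → f 1 = 1 →
    (∀ m n, 0 < m → 0 < n → f (m * n) = f m * f n) →
    (∀ n : ℕ, 0 < n → ‖S f n‖ ≤ C / Real.sqrt n) →
    (∀ p : ℕ, p.Prime → N0 ≤ p → ‖f p‖ ≤ 1 / p) → N0 ≤ N →
    ∀ x : ℝ, -(1 / 2 : ℝ) < x → x < 0 →
      1 ≤ ‖A x‖ * ‖m f x‖ * ‖PE N u x‖ * ‖PE N f x‖

/-- (BND) the size of the transform near `-1/2` -/
def S_BND : Prop :=
  ∀ (f : ℕ → ℂ) (C c : ℝ) (M : ℕ), (∀ n : ℕ, 0 < n → ‖S f n‖ ≤ C / Real.sqrt n) →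
    0 ≤ c → (∀ n : ℕ, M ≤ n → 0 < n → ‖S f n‖ ≤ c / Real.sqrt n) →
    ∀ c' : ℝ, c < c' → ∃ D : ℝ, ∀ x : ℝ, -(1 / 2 : ℝ) < x → x < 0 →
      ‖m f x‖ ≤ c' / (x + 1 / 2) + D

/-- (PRD) the products, letting `N → ∞` in (KEY) -/
def S_PRD : Prop :=
  ∀ (f : ℕ → ℂ) (N0 : ℕ) (x : ℝ) (T : ℝ), (∀ p : ℕ, p.Prime → N0 ≤ p → ‖f p‖ ≤ 1 / p) →
    -(1 / 2 : ℝ) < x → x < 0 → 0 ≤ T →
    (∀ N, N0 ≤ N → 1 ≤ T * ‖PE N u x‖ * ‖PE N f x‖) →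
    (1 / (2 * x + 1)) * (∏ p ∈ Nat.primesBelow N0, (1 - (p : ℝ) ^ (-(2 * x + 2)))) ≤
      T * ‖PE N0 u x‖ * ‖PE N0 f x‖

/-- the main statement -/
def S_MAIN : Prop :=
  ∀ (f : ℕ → ℂ) (N0 : ℕ), f 1 = 1 →
    (∀ m n, 0 < m → 0 < n → f (m * n) = f m * f n) →
    (∀ p : ℕ, p.Prime → N0 ≤ p → ‖f p‖ ≤ 1 / p) →
    ∀ c : ℝ, 0 ≤ c →
      c * ‖riemannZeta (1 / 2)‖ *
        (∏ p ∈ Nat.primesBelow N0, ‖1 - f p * Real.sqrt p‖) <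
        (∏ p ∈ Nat.primesBelow N0, (1 + 1 / Real.sqrt p)) →
      ∀ M : ℕ, ∃ n : ℕ, M ≤ n ∧ 0 < n ∧ c / Real.sqrt n ≤ ‖S f n‖

end Pool.Agent.J4H92.CM
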